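import Pool.Agent.K3h56.E2.Stm
import Pool.Agent.K3h30.RS.Act

/-!
# The trivial character: local facts
-/

set_option autoImplicit false
set_option linter.unusedSectionVars false

open NumberField IsDedekindDomain Filter Topology

noncomputable section

namespace Pool.Agent.K3h33.E2

open Pool.Agent.K3h30.RS Pool.Agent.K3h56.E2

section

variable {F H G : Type} [Field F] [NumberField F] [Field H] [NumberField H] [Algebra F H]
  [CommGroup G] [Finite G] [MulSemiringAction G H]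

lemma av_inr_eq_one {w : HeightOneSpectrum (𝓞 H)} {x : H} (h : w.valuation H x = 1) :
    av (Sum.inr w) x = 1 := by
  change HeightOneSpectrum.adicAbv H w x = 1
  rw [HeightOneSpectrum.adicAbv_def, h, map_one]
  rfl

lemma val_one (w : HeightOneSpectrum (𝓞 H)) (z : 𝓞 F)
    (hz : algebraMap (𝓞 F) (𝓞 H) z ∉ w.asIdeal) :
    w.valuation H (algebraMap F H (z : F)) = 1 := by
  have h1 : algebraMap F H (z : F) = algebraMap (𝓞 H) H (algebraMap (𝓞 F) (𝓞 H) z) := by
    rw [← IsScalarTower.algebraMap_apply (𝓞 F) (𝓞 H) H, IsScalarTower.algebraMap_apply (𝓞 F) F H]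
  rw [h1, HeightOneSpectrum.valuation_of_algebraMap]
  exact HeightOneSpectrum.intValuation_eq_one_iff.2 hz

lemma unit_notMem (w : HeightOneSpectrum (𝓞 H)) (ε : (𝓞 F)ˣ) :
    algebraMap (𝓞 F) (𝓞 H) (ε : 𝓞 F) ∉ w.asIdeal := by
  intro h
  exact w.isPrime.ne_top (Ideal.eq_top_of_isUnit_mem _ h (ε.isUnit.map _))

/-- An element which is a unit outside `v0`. -/
lemma notMem_of_pow {v0 : HeightOneSpectrum (𝓞 F)} {h : ℕ} {x0 : 𝓞 F}
    (hx : v0.asIdeal ^ h = Ideal.span {x0}) {w : HeightOneSpectrum (𝓞 H)} (hw : ¬ Above {v0} w) :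
    algebraMap (𝓞 F) (𝓞 H) x0 ∉ w.asIdeal := by
  intro hmem
  obtain ⟨v, hv⟩ := exists_above (F := F) w
  apply hw
  rw [above_singleton] at hv ⊢
  have h1 : x0 ∈ v.asIdeal := by rw [← hv]; exact hmem
  have h2 : v0.asIdeal ^ h ≤ v.asIdeal := by
    rw [hx, Ideal.span_singleton_le_iff_mem]
    exact h1
  have h3 : v0.asIdeal ≤ v.asIdeal := v.isPrime.le_of_pow_le h2
  have h4 : v0.asIdeal = v.asIdeal := v0.isMaximal.eq_of_le v.isPrime.ne_top h3
  rw [hv, h4]

/-- A power of a prime ideal is principal. -/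
lemma exists_gen (v0 : HeightOneSpectrum (𝓞 F)) :
    ∃ (h : ℕ) (x0 : 𝓞 F), 0 < h ∧ v0.asIdeal ^ h = Ideal.span {x0} := by
  have hmem : v0.asIdeal ∈ nonZeroDivisors (Ideal (𝓞 F)) := by
    rw [mem_nonZeroDivisors_iff_ne_zero]
    exact v0.ne_bot
  have h1 : (ClassGroup.mk0 ⟨v0.asIdeal, hmem⟩) ^ (Fintype.card (ClassGroup (𝓞 F))) = 1 :=
    pow_card_eq_one
  rw [← map_pow, ClassGroup.mk0_eq_one_iff] at h1
  obtain ⟨x0, hx0⟩ := h1
  refine ⟨Fintype.card (ClassGroup (𝓞 F)), x0, Fintype.card_pos, ?_⟩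
  exact hx0

/-- The product formula for the generator of a power of a prime ideal. -/
lemma sum_log {v0 : HeightOneSpectrum (𝓞 F)} {h : ℕ} {x0 : 𝓞 F}
    (hx : v0.asIdeal ^ h = Ideal.span {x0}) :
    ∑ w : InfinitePlace F, Real.log (w (x0 : F) ^ w.mult) =
      h * Real.log (Ideal.absNorm v0.asIdeal) := by
  have hx0 : x0 ≠ 0 := by
    rintro rfl
    have h1 : v0.asIdeal ^ h = 0 := by rw [hx]; simp
    exact v0.ne_bot (eq_zero_of_pow_eq_zero h1)
  have hx0' : (x0 : F) ≠ 0 := by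
    intro h0
    exact hx0 (RingOfIntegers.coe_injective h0)
  have e1 : ∑ w : InfinitePlace F, Real.log (w (x0 : F) ^ w.mult) =
      Real.log (∏ w : InfinitePlace F, w (x0 : F) ^ w.mult) := by
    rw [Real.log_prod]
    intro w _
    exact pow_ne_zero _ (by rw [Ne, map_eq_zero]; exact hx0')
  have e2 : ((|Algebra.norm ℚ (x0 : F)| : ℚ) : ℝ) = ((Ideal.absNorm v0.asIdeal : ℕ) : ℝ) ^ h := by
    rw [← Nat.cast_pow, ← map_pow, hx, Ideal.absNorm_span_singleton, ← Algebra.coe_norm_int]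
    rw [← Int.cast_abs, Rat.cast_intCast, Nat.cast_natAbs]
  rw [e1, InfinitePlace.prod_eq_abs_norm, e2, Real.log_pow]

lemma one_lt_norm (v0 : HeightOneSpectrum (𝓞 F)) : 0 < Real.log (Ideal.absNorm v0.asIdeal) := by
  apply Real.log_pos
  have h1 := HeightOneSpectrum.one_lt_absNorm v0
  exact_mod_cast h1

/-- An element of `F` is fixed. -/
lemma act_algebraMap [IsGaloisGroup G F H] (g : G) (z : Fˣ) :
    act g (Units.map (algebraMap F H : F →* H) z) = Units.map (algebraMap F H : F →* H) z := by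
  have := (inferInstance : IsGaloisGroup G F H).commutes
  apply Units.ext
  rw [act_val]
  change g • algebraMap F H (z : F) = algebraMap F H (z : F)
  exact smul_algebraMap g (z : F)

end

end Pool.Agent.K3h33.E2
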