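import Pool.Agent.K3h33.E2.Loc

/-!
# The trivial character
-/

set_option autoImplicit false
set_option linter.unusedSectionVars false

open NumberField IsDedekindDomain Filter Topology

noncomputable section

namespace Pool.Agent.K3h33.E2

open Pool.Agent.K3h30.RS Pool.Agent.K3h56.E2

section

variable {F H G : Type} [Field F] [NumberField F] [Field H] [NumberField H] [Algebra F H]
  [CommGroup G] [Finite G] [MulSemiringAction G H] [IsGaloisGroup G F H]

/-- The determinant of the elements of the two kinds. -/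
lemma core (hMult : S_MULT) (hUnit : S_PUNIT) (hBlock : S_BLOCK) (D : RubinData F H G)
    (W : {a : Fin D.r // (D.w a).isLeft = true} → InfinitePlace H)
    (hW : ∀ a, D.w a.1 = Sum.inl (W a))
    (V : {a : Fin D.r // ¬ (D.w a).isLeft = true} → HeightOneSpectrum (𝓞 H))
    (hV : ∀ a, D.w a.1 = Sum.inr (V a))
    (v : {a : Fin D.r // ¬ (D.w a).isLeft = true} → HeightOneSpectrum (𝓞 F))
    (hv : ∀ a, Above {v a} (V a)) (hvS : ∀ a, v a ∈ D.S) (hvi : Function.Injective v)
    (z : {a : Fin D.r // (D.w a).isLeft = true} → Fˣ)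
    (hz1 : ∀ b, ∀ w : HeightOneSpectrum (𝓞 H), ¬ Above (D.S : Set (HeightOneSpectrum (𝓞 F))) w →
      w.valuation H (algebraMap F H (z b : F)) = 1)
    (hz2 : ∀ b a, (V a).valuation H (algebraMap F H (z b : F)) = 1) :
    ∃ (x : Fin D.r → D.U ∅) (q : ℚ), q ≠ 0 ∧ (∀ b, ∀ g : G, act g (x b : Hˣ) = x b) ∧
      Matrix.det (Matrix.of fun a b : Fin D.r =>
        Real.log (av (D.w a) ((x b : Hˣ) : H))) = q *
      (Matrix.det (Matrix.of fun a b : {a : Fin D.r // (D.w a).isLeft = true} =>
        Real.log ((W a).comap (algebraMap F H) (z b : F) ^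
          ((W a).comap (algebraMap F H)).mult)) *
        ∏ a : {a : Fin D.r // ¬ (D.w a).isLeft = true},
          Real.log (Ideal.absNorm (v a).asIdeal)) := by
  have hex : ∀ a : {a : Fin D.r // ¬ (D.w a).isLeft = true}, ∃ x : Hˣ,
      (∀ g : G, act g x = x) ∧
      (∀ w' : HeightOneSpectrum (𝓞 H), ¬ Above {v a} w' → w'.valuation H (x : H) = 1) ∧
      ∃ q : ℚ, q ≠ 0 ∧ Real.log (av (Sum.inr (V a) : Place H) (x : H)) =
        q * Real.log (Ideal.absNorm (v a).asIdeal) := by
    intro a
    obtain ⟨x, h1, -, h2, h3⟩ := hUnit F H G 1 (fun g => by simp) (v a) (V a) (hv a) (by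
      intro γ hγ
      apply D.splits a.1 γ
      rw [hV a]
      exact hγ)
    exact ⟨x, fun g => h1 g rfl, h2, h3⟩
  choose t ht1 ht2 qt hqt0 hqt using hex
  -- the elements
  have hUz : ∀ b, Units.map (algebraMap F H : F →* H) (z b) ∈ D.U ∅ := by
    intro b
    refine ⟨fun w hw => hz1 b w hw, fun w hw => ?_⟩
    obtain ⟨v', hv', -⟩ := hw
    simp at hv'
  have hUt : ∀ b, t b ∈ D.U ∅ := by
    intro b
    refine ⟨fun w hw => ht2 b w ?_, fun w hw => ?_⟩
    · intro h
      apply hw
      rw [above_iff h]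
      exact hvS b
    · obtain ⟨v', hv', -⟩ := hw
      simp at hv'
  let x : Fin D.r → D.U ∅ := fun b =>
    if h : (D.w b).isLeft = true then ⟨_, hUz ⟨b, h⟩⟩ else ⟨_, hUt ⟨b, h⟩⟩
  have hx1 : ∀ b : {a : Fin D.r // (D.w a).isLeft = true}, ((x b.1 : D.U ∅) : Hˣ) =
      Units.map (algebraMap F H : F →* H) (z b) := by
    intro b
    simp only [x, dif_pos b.2]
  have hx2 : ∀ b : {a : Fin D.r // ¬ (D.w a).isLeft = true}, ((x b.1 : D.U ∅) : Hˣ) = t b := by
    intro b
    simp only [x, dif_neg b.2]
  have hblock := hBlock (Fin D.r) (fun a => (D.w a).isLeft = true)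
    (fun a b => Real.log (av (D.w a) ((x b : Hˣ) : H))) (by
      intro a b ha hab
      rw [hV ⟨a, ha⟩]
      by_cases hb : (D.w b).isLeft = true
      · rw [hx1 ⟨b, hb⟩, av_inr_eq_one, Real.log_one]
        exact hz2 ⟨b, hb⟩ ⟨a, ha⟩
      · rw [hx2 ⟨b, hb⟩, av_inr_eq_one, Real.log_one]
        apply ht2
        intro h
        rw [above_singleton] at h
        have h' := hv ⟨a, ha⟩
        rw [above_singleton] at h'
        have h3 : v ⟨a, ha⟩ = v ⟨b, hb⟩ := HeightOneSpectrum.ext (by rw [← h, ← h'])
        have h4 := congrArg Subtype.val (hvi h3)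
        exact hab h4)
  refine ⟨x, ∏ a, qt a, Finset.prod_ne_zero_iff.2 fun a _ => hqt0 a, ?_, ?_⟩
  · intro b g
    by_cases hb : (D.w b).isLeft = true
    · rw [hx1 ⟨b, hb⟩]
      exact act_algebraMap g _
    · rw [hx2 ⟨b, hb⟩]
      exact ht1 _ g
  · rw [hblock]
    have e1 : ∀ a b : {a : Fin D.r // (D.w a).isLeft = true},
        Real.log (av (D.w a) ((x b : Hˣ) : H)) =
        Real.log ((W a).comap (algebraMap F H) (z b : F) ^
          ((W a).comap (algebraMap F H)).mult) := by
      intro a b
      have hm := hMult F H G F (W a) (by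
        intro γ hγ
        apply D.splits a.1 γ
        rw [hW a]
        exact hγ)
      rw [hx1 b, hW a, ← hm]
      rfl
    have e2 : ∀ a : {a : Fin D.r // ¬ (D.w a).isLeft = true},
        Real.log (av (D.w a) ((x a : Hˣ) : H)) =
        qt a * Real.log (Ideal.absNorm (v a).asIdeal) := by
      intro a
      rw [hx2 a, hV a, hqt a]
    simp only [e1, e2]
    rw [Finset.prod_mul_distrib, Rat.cast_prod]
    ring

end

/-- The regulator of `F` times the logarithms of the norms of the prime ideals in `S`. -/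
lemma reg_cases (hR1 : S_REG1) (hR2 : S_REG2) (F : Type) [Field F] [NumberField F]
    (S : Finset (HeightOneSpectrum (𝓞 F))) (ι κ : Type) [Fintype ι] [DecidableEq ι] [Fintype κ]
    (u : ι → InfinitePlace F) (hu : Function.Injective u) (v : κ → HeightOneSpectrum (𝓞 F))
    (hv : Function.Injective v) (hvS : ∀ a, v a ∈ S)
    (p : InfinitePlace F ⊕ HeightOneSpectrum (𝓞 F))
    (hp : ∀ v0, p = Sum.inr v0 → v0 ∈ S)
    (hp1 : ∀ a, Sum.inl (u a) ≠ p) (hp2 : ∀ a, Sum.inr (v a) ≠ p)
    (hs1 : ∀ w, Sum.inl w ≠ p → ∃ a, u a = w) (hs2 : ∀ w ∈ S, Sum.inr w ≠ p → ∃ a, v a = w) :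
    ∃ (z : ι → Fˣ) (q : ℚ), (∀ b, (∃ ε : (𝓞 F)ˣ, (z b : F) = ((ε : 𝓞 F) : F)) ∨
        ∃ (v0 : HeightOneSpectrum (𝓞 F)) (h : ℕ) (x0 : 𝓞 F), p = Sum.inr v0 ∧
          v0.asIdeal ^ h = Ideal.span {x0} ∧ (z b : F) = (x0 : F)) ∧
      Units.regulator F * ∏ w ∈ S, Real.log (Ideal.absNorm w.asIdeal) =
        q * (Matrix.det (Matrix.of fun a b : ι => Real.log (u a (z b : F) ^ (u a).mult)) *
          ∏ a, Real.log (Ideal.absNorm (v a).asIdeal)) := by
  rcases p with v0 | v0
  · -- an infinite place is omitted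
    have h1 : ∀ a, u a ≠ v0 := fun a h => hp1 a (by rw [h])
    have hcard : Fintype.card ι + 1 = Fintype.card (InfinitePlace F) := by
      classical
      have e1 : Finset.univ.image u = Finset.univ.erase v0 := by
        ext w
        simp only [Finset.mem_image, Finset.mem_univ, true_and, Finset.mem_erase, and_true]
        constructor
        · rintro ⟨a, rfl⟩
          exact h1 a
        · intro hw
          exact hs1 w (by simpa using hw)
      have e2 := congrArg Finset.card e1
      rw [Finset.card_image_of_injective _ hu, Finset.card_erase_of_mem (Finset.mem_univ _),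
        Finset.card_univ, Finset.card_univ] at e2
      have e3 : 0 < Fintype.card (InfinitePlace F) := Fintype.card_pos_iff.2 ⟨v0⟩
      omega
    obtain ⟨ε, q, hq⟩ := hR1 F v0 ι u hu h1 hcard
    refine ⟨fun b => Units.map (algebraMap (𝓞 F) F : 𝓞 F →* F) (ε b), q,
      fun b => Or.inl ⟨ε b, rfl⟩, ?_⟩
    have e4 : ∏ w ∈ S, Real.log (Ideal.absNorm w.asIdeal) =
        ∏ a, Real.log (Ideal.absNorm (v a).asIdeal) := by
      classical
      have e5 : S = Finset.univ.image v := by
        ext w
        simp only [Finset.mem_image, Finset.mem_univ, true_and]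
        constructor
        · intro hw
          exact hs2 w hw (by simp)
        · rintro ⟨a, rfl⟩
          exact hvS a
      rw [e5, Finset.prod_image (fun a _ b _ h => hv h)]
    rw [e4, hq, mul_assoc]
    rfl
  · -- a prime ideal is omitted
    have hbij : Function.Bijective u := ⟨hu, fun w => hs1 w (by simp)⟩
    obtain ⟨h, x0, hh, hx0⟩ := exists_gen v0
    have hx0' : (x0 : F) ≠ 0 := by
      intro h0
      have h1 : x0 = 0 := RingOfIntegers.coe_injective h0
      have h2 : v0.asIdeal ^ h = 0 := by rw [hx0, h1]; simp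
      exact v0.ne_bot (eq_zero_of_pow_eq_zero h2)
    obtain ⟨y, q, hy, hq⟩ := hR2 F ι u hbij (Units.mk0 (x0 : F) hx0')
    refine ⟨y, q / h, fun b => ?_, ?_⟩
    · rcases hy b with hb | hb
      · exact Or.inr ⟨v0, h, x0, rfl, hx0, by rw [hb]; rfl⟩
      · exact Or.inl hb
    · have e4 : ∏ w ∈ S, Real.log (Ideal.absNorm w.asIdeal) =
          Real.log (Ideal.absNorm v0.asIdeal) * ∏ a, Real.log (Ideal.absNorm (v a).asIdeal) := by
        classical
        have hv0 : v0 ∈ S := hp v0 rfl
        have e5 : S.erase v0 = Finset.univ.image v := by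
          ext w
          simp only [Finset.mem_image, Finset.mem_univ, true_and, Finset.mem_erase]
          constructor
          · rintro ⟨hw1, hw2⟩
            exact hs2 w hw2 (by simpa using hw1)
          · rintro ⟨a, rfl⟩
            exact ⟨fun h => hp2 a (by rw [h]), hvS a⟩
        rw [← Finset.mul_prod_erase S _ hv0, e5, Finset.prod_image (fun a _ b _ h => hv h)]
      have e6 : ∑ w : InfinitePlace F, Real.log (w ((Units.mk0 (x0 : F) hx0' : Fˣ) : F) ^ w.mult) =
          h * Real.log (Ideal.absNorm v0.asIdeal) := sum_log hx0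
      rw [e6] at hq
      have hh' : (h : ℝ) ≠ 0 := by exact_mod_cast hh.ne'
      rw [e4, Rat.cast_div, Rat.cast_natCast]
      rw [← mul_assoc, ← mul_assoc]
      congr 1
      rw [div_mul_eq_mul_div, eq_div_iff hh', ← hq]
      ring

/-- brick ONE. The trivial character. -/
theorem t_ONE (h0 : S_ZETA0) (hL : S_LIM1) (hR1 : S_REG1) (hR2 : S_REG2) (hMult : S_MULT)
    (hUnit : S_PUNIT) (hPl : S_PLACES) (hBlock : S_BLOCK) : S_ONE := by
  intro F H G _ _ _ _ _ _ _ _ _ D
  obtain ⟨f, hf, hfl, hfr, -, ⟨p1, hp1, hp1'⟩, -, hact⟩ := hPl F H G D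
  obtain ⟨q, hq⟩ := hL h0 F D.S (D.L 1) (D.analytic 1) (fun s hs => by
    simpa using D.euler 1 s hs)
  have hc : 0 < Fintype.card (InfinitePlace F) := Fintype.card_pos
  -- the places of `F` in `S`
  have hcardP : ∃ P : Finset (InfinitePlace F ⊕ HeightOneSpectrum (𝓞 F)), (∀ p, p ∈ P ↔ InSF D p) ∧
      P.card = Fintype.card (InfinitePlace F) + D.S.card := by
    refine ⟨Finset.univ.disjSum D.S, ?_, ?_⟩
    · rintro (p | p)
      · simp [InSF]
      · simp [InSF]
    · rw [Finset.card_disjSum, Finset.card_univ]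
  obtain ⟨P, hP, hPc⟩ := hcardP
  have hcases : ∀ a, (∃ w, D.w a = Sum.inl w) ∨ ∃ w, D.w a = Sum.inr w := by
    intro a
    rcases D.w a with w | w
    · exact Or.inl ⟨w, rfl⟩
    · exact Or.inr ⟨w, rfl⟩
  have hfP : ∀ a, f a ∈ P := by
    intro a
    rw [hP]
    rcases hcases a with ⟨w, hw⟩ | ⟨w, hw⟩
    · rw [hfl a w hw]
      trivial
    · obtain ⟨v, hv1, hv2, -⟩ := hfr a w hw
      rw [hv1]
      exact hv2
  constructor
  · intro hna
    rw [hact] at hna
    push Not at hna
    obtain ⟨p, p', hp, hp', hpf, hpf', hne⟩ := hna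
    have hlt : D.r < Fintype.card (InfinitePlace F) - 1 + D.S.card := by
      classical
      have h1 : insert p (insert p' (Finset.univ.image f)) ⊆ P := by
        intro x hx
        simp only [Finset.mem_insert, Finset.mem_image, Finset.mem_univ, true_and] at hx
        rcases hx with rfl | rfl | ⟨a, rfl⟩
        · exact (hP _).2 hp
        · exact (hP _).2 hp'
        · exact hfP a
      have h2 := Finset.card_le_card h1
      rw [Finset.card_insert_of_notMem, Finset.card_insert_of_notMem,
        Finset.card_image_of_injective _ hf, Finset.card_univ, Fintype.card_fin, hPc] at h2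
      · omega
      · simpa using hpf'
      · simp only [Finset.mem_insert, Finset.mem_image, Finset.mem_univ, true_and, not_or]
        exact ⟨hne, hpf⟩
    obtain ⟨k, hk⟩ := Nat.exists_eq_add_of_lt hlt
    have h3 : Tendsto (fun s : ℂ => s ^ (k + 1)) (𝓝[≠] 0) (𝓝 0) := by
      have h4 : Tendsto (fun s : ℂ => s ^ (k + 1)) (𝓝 0) (𝓝 (0 ^ (k + 1))) :=
        (continuous_pow (k + 1)).tendsto 0
      rw [zero_pow (Nat.succ_ne_zero k)] at h4
      exact h4.mono_left nhdsWithin_le_nhds
    have h5 := h3.mul hq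
    rw [zero_mul] at h5
    refine h5.congr' ?_
    filter_upwards [self_mem_nhdsWithin] with s hs
    have hs' : s ≠ 0 := hs
    rw [hk, pow_add, pow_add, pow_add]
    field_simp
  · intro ha
    rw [hact] at ha
    have huniq : ∀ p, InSF D p → p ≠ p1 → p ∈ Set.range f := by
      intro p hp hne
      by_contra hcon
      exact hne (ha p p1 hp hp1 hcon hp1')
    have hr : D.r = Fintype.card (InfinitePlace F) - 1 + D.S.card := by
      classical
      have h1 : insert p1 (Finset.univ.image f) = P := by
        ext x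
        simp only [Finset.mem_insert, Finset.mem_image, Finset.mem_univ, true_and]
        constructor
        · rintro (rfl | ⟨a, rfl⟩)
          · exact (hP _).2 hp1
          · exact hfP a
        · intro hx
          by_cases hxp : x = p1
          · exact Or.inl hxp
          · exact Or.inr (huniq x ((hP _).1 hx) hxp)
      have h2 := congrArg Finset.card h1
      rw [Finset.card_insert_of_notMem, Finset.card_image_of_injective _ hf, Finset.card_univ,
        Fintype.card_fin, hPc] at h2
      · omega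
      · simpa using hp1'
    rw [← hr] at hq
    have hWex : ∀ a : {a : Fin D.r // (D.w a).isLeft = true}, ∃ w, D.w a.1 = Sum.inl w := by
      intro a
      rcases hcases a.1 with h | ⟨w, hw⟩
      · exact h
      · exact absurd a.2 (by rw [hw]; simp)
    choose W hW using hWex
    have hVex : ∀ a : {a : Fin D.r // ¬ (D.w a).isLeft = true}, ∃ w v, D.w a.1 = Sum.inr w ∧
        f a.1 = Sum.inr v ∧ v ∈ D.S ∧ Above {v} w := by
      intro a
      rcases hcases a.1 with ⟨w, hw⟩ | ⟨w, hw⟩
      · exact absurd (by rw [hw]; simp) a.2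
      · obtain ⟨v, h1, h2, h3⟩ := hfr a.1 w hw
        exact ⟨w, v, hw, h1, h2, h3⟩
    choose V v hV hfv hvS hvV using hVex
    have hfu : ∀ a, f a.1 = Sum.inl ((W a).comap (algebraMap F H)) := fun a => hfl a.1 _ (hW a)
    have hui : Function.Injective fun a => (W a).comap (algebraMap F H) := by
      intro a b hab
      apply Subtype.ext
      apply hf
      rw [hfu, hfu]
      exact congrArg Sum.inl hab
    have hvi : Function.Injective v := by
      intro a b hab
      apply Subtype.ext
      apply hf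
      rw [hfv, hfv, hab]
    obtain ⟨z, Q, hz, hQ⟩ := reg_cases hR1 hR2 F D.S {a : Fin D.r // (D.w a).isLeft = true}
      {a : Fin D.r // ¬ (D.w a).isLeft = true} (fun a => (W a).comap (algebraMap F H)) hui v hvi
      hvS p1 (fun v0 h => by rw [h] at hp1; exact hp1)
      (fun a h => hp1' ⟨a.1, by rw [hfu, h]⟩) (fun a h => hp1' ⟨a.1, by rw [hfv, h]⟩)
      (by
        intro w hw
        obtain ⟨a, ha'⟩ := huniq (Sum.inl w) trivial hw
        by_cases hl : (D.w a).isLeft = true
        · refine ⟨⟨a, hl⟩, ?_⟩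
          have h1 := hfu ⟨a, hl⟩
          rw [ha'] at h1
          exact (Sum.inl_injective h1).symm
        · have h1 := hfv ⟨a, hl⟩
          rw [ha'] at h1
          exact absurd h1 (by simp))
      (by
        intro w hwS hw
        obtain ⟨a, ha'⟩ := huniq (Sum.inr w) hwS hw
        by_cases hl : (D.w a).isLeft = true
        · have h1 := hfu ⟨a, hl⟩
          rw [ha'] at h1
          exact absurd h1 (by simp)
        · refine ⟨⟨a, hl⟩, ?_⟩
          have h1 := hfv ⟨a, hl⟩
          rw [ha'] at h1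
          exact (Sum.inr_injective h1).symm)
    -- the elements are units outside `p1`
    have hzv : ∀ b, ∀ w : HeightOneSpectrum (𝓞 H), (∀ v0, p1 = Sum.inr v0 → ¬ Above {v0} w) →
        w.valuation H (algebraMap F H (z b : F)) = 1 := by
      intro b w hw
      rcases hz b with ⟨ε, hε⟩ | ⟨v0, h, x0, hp, hx0, hzx⟩
      · rw [hε]
        exact val_one w _ (unit_notMem w ε)
      · rw [hzx]
        exact val_one w _ (notMem_of_pow hx0 (hw v0 hp))
    obtain ⟨x, q', hq', hx, hdet⟩ := core hMult hUnit hBlock D W hW V hV v hvV hvS hvi z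
      (by
        intro b w hw
        apply hzv
        intro v0 hv0 habove
        apply hw
        rw [above_iff habove]
        rw [hv0] at hp1
        exact hp1)
      (by
        intro b a
        apply hzv
        intro v0 hv0 habove
        have h1 := hvV a
        rw [above_singleton] at h1 habove
        have h2 : v a = v0 := HeightOneSpectrum.ext (by rw [← h1, ← habove])
        apply hp1'
        exact ⟨a.1, by rw [hfv, h2, hv0]⟩)
    refine ⟨x, q * (Q / q'), fun b g _ => hx b g, fun b g hg => absurd rfl hg, ?_⟩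
    have hq'' : (q' : ℝ) ≠ 0 := by exact_mod_cast hq'
    have hfin : ((q : ℂ) * ((Units.regulator F *
        ∏ v ∈ D.S, Real.log (Ideal.absNorm v.asIdeal) : ℝ) : ℂ)) =
        (((q * (Q / q') : ℚ) : ℂ) * ((Matrix.det (Matrix.of fun a b : Fin D.r =>
        Real.log (av (D.w a) ((x b : Hˣ) : H))) : ℝ) : ℂ)) := by
      rw [hdet, hQ]
      push_cast
      have hq3 : (q' : ℂ) ≠ 0 := by exact_mod_cast hq'
      field_simp
    rw [← hfin]
    exact hq

end Pool.Agent.K3h33.E2
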